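import Pool.Agent.Helper28.NO.Goals

/-!
# Packet D3a for MP_705522_gt
-/

namespace Pool.Agent.Helper33.NO

open MeasureTheory Set
open Pool.Agent.Helper28.NO
open Pool.Agent.Helper7.Proj (Zd)

/-- the density of `muZ` -/
noncomputable def wz (q z : ℝ) : ℝ := z ^ (q - 2) * Real.exp (-z ^ q) / Zd q

lemma measurable_wz (q : ℝ) : Measurable (wz q) := by
  unfold wz
  fun_prop

/-- the density of `c Z` -/
noncomputable def W (q c x : ℝ) : ENNReal := ENNReal.ofReal (c⁻¹ * wz q (x / c))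

lemma measurable_W (q c : ℝ) : Measurable (W q c) := by
  unfold W
  have h := measurable_wz q
  fun_prop

lemma lintegral_scale (g : ℝ → ENNReal) (hg : Measurable g) {a : ℝ} (ha : 0 < a) :
    ∫⁻ x in Ioi (0 : ℝ), g (a * x) = ENNReal.ofReal a⁻¹ * ∫⁻ x in Ioi (0 : ℝ), g x := by
  have h1 : ∫⁻ x in Ioi (0 : ℝ), g (a * x) = ∫⁻ x, (Ioi (0 : ℝ)).indicator g (a * x) := by
    rw [← lintegral_indicator measurableSet_Ioi]
    congr 1
    funext x
    by_cases hx : 0 < x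
    · rw [indicator_of_mem (show x ∈ Ioi (0 : ℝ) from hx),
        indicator_of_mem (show a * x ∈ Ioi (0 : ℝ) from mul_pos ha hx)]
    · rw [indicator_of_notMem (show x ∉ Ioi (0 : ℝ) from hx), indicator_of_notMem]
      intro h
      exact hx (pos_of_mul_pos_right (mem_Ioi.1 h) ha.le)
  have h2 : ∫⁻ x, (Ioi (0 : ℝ)).indicator g (a * x) =
      ∫⁻ x, (Ioi (0 : ℝ)).indicator g x ∂(Measure.map (a * ·) volume) := by
    rw [lintegral_map (hg.indicator measurableSet_Ioi) (measurable_const_mul a)]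
  rw [h1, h2, Real.map_volume_mul_left ha.ne', lintegral_smul_measure,
    abs_of_pos (inv_pos.2 ha), lintegral_indicator measurableSet_Ioi]
  rfl

lemma lint_muZ (q : ℝ) (g : ℝ → ENNReal) (hg : Measurable g) {a : ℝ} (ha : 0 < a) :
    ∫⁻ x, g (a * x) ∂(muZ q) = ∫⁻ x in Ioi (0 : ℝ), W q a x * g x := by
  unfold muZ
  have hm := measurable_wz q
  rw [lintegral_withDensity_eq_lintegral_mul (g := fun x => g (a * x)) _ (by fun_prop)
    (hg.comp (measurable_const_mul a))]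
  have h := lintegral_scale (fun x => ENNReal.ofReal (wz q (x / a)) * g x) (by fun_prop) ha
  have h3 : ∀ x, W q a x * g x =
      ENNReal.ofReal a⁻¹ * (ENNReal.ofReal (wz q (x / a)) * g x) := by
    intro x
    unfold W
    rw [ENNReal.ofReal_mul (inv_pos.2 ha).le, mul_assoc]
  simp_rw [h3]
  rw [lintegral_const_mul _ (by fun_prop), ← h]
  refine lintegral_congr fun x => ?_
  simp only [Pi.mul_apply]
  rw [mul_div_cancel_left₀ _ ha.ne']
  rfl

instance sf (q : ℝ) : SFinite (muZ q) := by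
  unfold muZ
  infer_instance

lemma lint_prod (q : ℝ) (f : ℝ → ℝ → ENNReal) (hf : Measurable (Function.uncurry f)) {a b : ℝ}
    (ha : 0 < a) (hb : 0 < b) :
    ∫⁻ p : ℝ × ℝ, f (a * p.1) (b * p.2) ∂((muZ q).prod (muZ q)) =
      ∫⁻ x in Ioi (0 : ℝ), ∫⁻ y in Ioi (0 : ℝ), W q a x * W q b y * f x y := by
  have hmW := measurable_W q
  have h1 : Measurable (fun p : ℝ × ℝ => f (a * p.1) (b * p.2)) :=
    hf.comp (f := fun p : ℝ × ℝ => (a * p.1, b * p.2)) (by fun_prop)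
  rw [lintegral_prod _ h1.aemeasurable]
  have h2 : ∀ x, ∫⁻ y, f (a * x) (b * y) ∂(muZ q) =
      ∫⁻ y in Ioi (0 : ℝ), W q b y * f (a * x) y := by
    intro x
    exact lint_muZ q (fun y => f (a * x) y) (hf.comp (f := fun y : ℝ => (a * x, y)) (by fun_prop))
      hb
  simp_rw [h2]
  have h4 : Measurable (Function.uncurry fun x y => W q b y * f x y) := by
    unfold Function.uncurry
    exact ((hmW b).comp measurable_snd).mul hf
  rw [lint_muZ q (fun x => ∫⁻ y in Ioi (0 : ℝ), W q b y * f x y) (h4.lintegral_prod_right') ha]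
  refine lintegral_congr fun x => ?_
  have h5 : Measurable (fun y => W q b y * f x y) :=
    h4.comp (f := fun y : ℝ => (x, y)) (by fun_prop)
  rw [← lintegral_const_mul _ h5]
  refine lintegral_congr fun y => ?_
  rw [mul_assoc]

lemma r_eq (q : ℝ) {c x : ℝ} (hc : 0 < c) (hx : 0 < x) :
    c⁻¹ * wz q (x / c) =
      x ^ (q - 2) * (c ^ (q - 1))⁻¹ * Real.exp (-(x ^ q * c ^ (-q))) / Zd q := by
  unfold wz
  have h1 : c ^ (q - 1) = c ^ (q - 2) * c := by
    rw [show q - 1 = (q - 2) + 1 by ring, Real.rpow_add_one hc.ne']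
  rw [Real.div_rpow hx.le hc.le, Real.div_rpow hx.le hc.le, h1, Real.rpow_neg hc.le,
    mul_inv, div_eq_mul_inv (x ^ q) (c ^ q)]
  ring

lemma hm_rpow {q a b : ℝ} (hq : 2 < q) (ha : 0 < a) (hb : 0 < b) :
    0 < hm q a b ∧ hm q a b ^ (-q) = (a ^ (-q) + b ^ (-q)) / 2 := by
  have h1 : 0 < a ^ (-q) := Real.rpow_pos_of_pos ha _
  have h2 : 0 < b ^ (-q) := Real.rpow_pos_of_pos hb _
  have h3 : 0 < (a ^ (-q) + b ^ (-q)) / 2 := by positivity
  refine ⟨Real.rpow_pos_of_pos h3 _, ?_⟩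
  unfold hm
  rw [← Real.rpow_mul h3.le]
  rw [show (-(1 / q)) * (-q) = 1 by field_simp, Real.rpow_one]

lemma amgm (α β : ℝ) :
    2 * Real.exp (-((α + β) / 2)) ≤ Real.exp (-α) + Real.exp (-β) := by
  have h1 : Real.exp (-α) = Real.exp (-(α / 2)) ^ 2 := by
    rw [← Real.exp_nat_mul]; congr 1; push_cast; ring
  have h2 : Real.exp (-β) = Real.exp (-(β / 2)) ^ 2 := by
    rw [← Real.exp_nat_mul]; congr 1; push_cast; ring
  have h3 : Real.exp (-((α + β) / 2)) = Real.exp (-(α / 2)) * Real.exp (-(β / 2)) := by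
    rw [← Real.exp_add]; congr 1; ring
  rw [h1, h2, h3]
  nlinarith [sq_nonneg (Real.exp (-(α / 2)) - Real.exp (-(β / 2)))]

lemma key_real {q : ℝ} (hq : 2 < q) {a b x y : ℝ} (ha : 0 < a) (hb : 0 < b) (hx : 0 < x)
    (hy : 0 < y) (hZ : 0 < Zd q) :
    2 * ((hm q a b ^ 2 / (a * b)) ^ (q - 1) *
      (((hm q a b)⁻¹ * wz q (x / hm q a b)) * ((hm q a b)⁻¹ * wz q (y / hm q a b)))) ≤
    (a⁻¹ * wz q (x / a)) * (b⁻¹ * wz q (y / b)) +
      (b⁻¹ * wz q (x / b)) * (a⁻¹ * wz q (y / a)) := by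
  obtain ⟨hh, hhq⟩ := hm_rpow hq ha hb
  set h := hm q a b with hdef
  rw [r_eq q hh hx, r_eq q hh hy, r_eq q ha hx, r_eq q hb hy, r_eq q hb hx, r_eq q ha hy, hhq]
  have hK : (h ^ 2 / (a * b)) ^ (q - 1) =
      (h ^ (q - 1) * h ^ (q - 1)) * ((a ^ (q - 1))⁻¹ * (b ^ (q - 1))⁻¹) := by
    rw [Real.div_rpow (by positivity) (by positivity), pow_two, Real.mul_rpow hh.le hh.le,
      Real.mul_rpow ha.le hb.le, div_eq_mul_inv, mul_inv]
  have hhp : h ^ (q - 1) ≠ 0 := (Real.rpow_pos_of_pos hh _).ne'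
  rw [hK]
  set P := x ^ (q - 2) * y ^ (q - 2) * ((a ^ (q - 1))⁻¹ * (b ^ (q - 1))⁻¹) / (Zd q * Zd q)
    with hP
  have hP0 : 0 ≤ P := by
    have := Real.rpow_nonneg hx.le (q - 2)
    have := Real.rpow_nonneg hy.le (q - 2)
    have := Real.rpow_nonneg ha.le (q - 1)
    have := Real.rpow_nonneg hb.le (q - 1)
    positivity
  have e1 : 2 * ((h ^ (q - 1) * h ^ (q - 1)) * ((a ^ (q - 1))⁻¹ * (b ^ (q - 1))⁻¹) *
      ((x ^ (q - 2) * (h ^ (q - 1))⁻¹ * Real.exp (-(x ^ q * ((a ^ (-q) + b ^ (-q)) / 2))) /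
        Zd q) *
      (y ^ (q - 2) * (h ^ (q - 1))⁻¹ * Real.exp (-(y ^ q * ((a ^ (-q) + b ^ (-q)) / 2))) /
        Zd q))) = P * (2 * Real.exp (-(((x ^ q * a ^ (-q) + y ^ q * b ^ (-q)) +
          (x ^ q * b ^ (-q) + y ^ q * a ^ (-q))) / 2))) := by
    rw [show -(((x ^ q * a ^ (-q) + y ^ q * b ^ (-q)) +
          (x ^ q * b ^ (-q) + y ^ q * a ^ (-q))) / 2) =
          -(x ^ q * ((a ^ (-q) + b ^ (-q)) / 2)) + -(y ^ q * ((a ^ (-q) + b ^ (-q)) / 2)) by ring,
      Real.exp_add, hP]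
    field_simp
  have e2 : (x ^ (q - 2) * (a ^ (q - 1))⁻¹ * Real.exp (-(x ^ q * a ^ (-q))) / Zd q) *
      (y ^ (q - 2) * (b ^ (q - 1))⁻¹ * Real.exp (-(y ^ q * b ^ (-q))) / Zd q) =
      P * Real.exp (-(x ^ q * a ^ (-q) + y ^ q * b ^ (-q))) := by
    rw [show -(x ^ q * a ^ (-q) + y ^ q * b ^ (-q)) = -(x ^ q * a ^ (-q)) + -(y ^ q * b ^ (-q)) by
      ring, Real.exp_add, hP]
    field_simp
  have e3 : (x ^ (q - 2) * (b ^ (q - 1))⁻¹ * Real.exp (-(x ^ q * b ^ (-q))) / Zd q) *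
      (y ^ (q - 2) * (a ^ (q - 1))⁻¹ * Real.exp (-(y ^ q * a ^ (-q))) / Zd q) =
      P * Real.exp (-(x ^ q * b ^ (-q) + y ^ q * a ^ (-q))) := by
    rw [show -(x ^ q * b ^ (-q) + y ^ q * a ^ (-q)) = -(x ^ q * b ^ (-q)) + -(y ^ q * a ^ (-q)) by
      ring, Real.exp_add, hP]
    field_simp
  rw [e1, e2, e3, ← mul_add]
  exact mul_le_mul_of_nonneg_left (amgm _ _) hP0

lemma wz_nonneg {q z : ℝ} (hz : 0 < z) (hZ : 0 < Zd q) : 0 ≤ wz q z := by
  unfold wz
  have := Real.rpow_nonneg hz.le (q - 2)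
  positivity

lemma key {q : ℝ} (hq : 2 < q) {a b x y : ℝ} (ha : 0 < a) (hb : 0 < b) (hx : 0 < x)
    (hy : 0 < y) :
    2 * (ENNReal.ofReal ((hm q a b ^ 2 / (a * b)) ^ (q - 1)) *
      (W q (hm q a b) x * W q (hm q a b) y)) ≤ W q a x * W q b y + W q b x * W q a y := by
  obtain ⟨hh, -⟩ := hm_rpow hq ha hb
  rcases le_or_gt (Zd q) 0 with hZ | hZ
  · have h0 : ∀ c z : ℝ, 0 < c → 0 < z → W q c z = 0 := by
      intro c z hc hz
      unfold W
      rw [ENNReal.ofReal_eq_zero]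
      apply mul_nonpos_of_nonneg_of_nonpos (inv_pos.2 hc).le
      unfold wz
      apply div_nonpos_of_nonneg_of_nonpos _ hZ
      have := Real.rpow_nonneg (div_pos hz hc).le (q - 2)
      positivity
    rw [h0 _ x hh hx]
    simp
  · have hn : ∀ c z : ℝ, 0 < c → 0 < z → 0 ≤ c⁻¹ * wz q (z / c) := by
      intro c z hc hz
      exact mul_nonneg (inv_pos.2 hc).le (wz_nonneg (div_pos hz hc) hZ)
    have hk : 0 ≤ (hm q a b ^ 2 / (a * b)) ^ (q - 1) := Real.rpow_nonneg (by positivity) _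
    unfold W
    rw [← ENNReal.ofReal_mul (hn _ _ hh hx), ← ENNReal.ofReal_mul (hn _ _ ha hx),
      ← ENNReal.ofReal_mul (hn _ _ hb hx), ← ENNReal.ofReal_mul hk,
      ← ENNReal.ofReal_add (mul_nonneg (hn _ _ ha hx) (hn _ _ hb hy))
        (mul_nonneg (hn _ _ hb hx) (hn _ _ ha hy)),
      show (2 : ENNReal) = ENNReal.ofReal 2 by simp, ← ENNReal.ofReal_mul (by norm_num)]
    exact ENNReal.ofReal_le_ofReal (key_real hq ha hb hx hy hZ)

lemma muZ_finite {q : ℝ} (hq : 2 < q) : IsFiniteMeasure (muZ q) := by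
  unfold muZ
  apply isFiniteMeasure_withDensity_ofReal
  have h := integrableOn_rpow_mul_exp_neg_rpow (p := q) (s := q - 2) (by linarith) (by linarith)
  exact (h.div_const (Zd q)).2

theorem goalD3a : GD3a := by
  intro q hq a b ρ ha hb hρ
  obtain ⟨hh, -⟩ := hm_rpow hq ha hb
  have hfin := muZ_finite hq
  set h := hm q a b with hdef
  set F : ℝ → ℝ → ENNReal := fun x y => ENNReal.ofReal (max 0 (ρ - |x - y|)) with hF
  have hFm : Measurable (Function.uncurry F) := by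
    unfold Function.uncurry
    simp only [hF]
    fun_prop
  have hWm := measurable_W q
  have hab := lint_prod q F hFm ha hb
  have hba := lint_prod q F hFm hb ha
  have hhh := lint_prod q F hFm hh hh
  -- symmetry
  have hsym : ∫⁻ p : ℝ × ℝ, F (b * p.1) (a * p.2) ∂((muZ q).prod (muZ q)) =
      ∫⁻ p : ℝ × ℝ, F (a * p.1) (b * p.2) ∂((muZ q).prod (muZ q)) := by
    have hm1 : Measurable (fun p : ℝ × ℝ => F (b * p.1) (a * p.2)) :=
      hFm.comp (f := fun p : ℝ × ℝ => (b * p.1, a * p.2)) (by fun_prop)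
    have e1 : ∫⁻ p : ℝ × ℝ, F (b * p.1) (a * p.2) ∂((muZ q).prod (muZ q)) =
        ∫⁻ p : ℝ × ℝ, F (b * p.1) (a * p.2) ∂(((muZ q).prod (muZ q)).map Prod.swap) := by
      rw [Measure.prod_swap]
    rw [e1, lintegral_map hm1 measurable_swap]
    refine lintegral_congr fun p => ?_
    simp only [hF, Prod.fst_swap, Prod.snd_swap]
    rw [abs_sub_comm]
  have hmain : 2 * (ENNReal.ofReal ((h ^ 2 / (a * b)) ^ (q - 1)) *
      ∫⁻ p : ℝ × ℝ, F (h * p.1) (h * p.2) ∂((muZ q).prod (muZ q))) ≤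
      2 * ∫⁻ p : ℝ × ℝ, F (a * p.1) (b * p.2) ∂((muZ q).prod (muZ q)) := by
    rw [two_mul (∫⁻ p : ℝ × ℝ, F (a * p.1) (b * p.2) ∂((muZ q).prod (muZ q)))]
    nth_rewrite 2 [← hsym]
    rw [hab, hba, hhh]
    have m2 : ∀ c d : ℝ, Measurable (Function.uncurry fun x y => W q c x * W q d y * F x y) := by
      intro c d
      unfold Function.uncurry
      exact (((hWm c).comp measurable_fst).mul ((hWm d).comp measurable_snd)).mul hFm
    have m3 : ∀ c d : ℝ, Measurable fun x => ∫⁻ y in Ioi (0 : ℝ), W q c x * W q d y * F x y :=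
      fun c d => (m2 c d).lintegral_prod_right'
    have m4 : ∀ c d x : ℝ, Measurable fun y => W q c x * W q d y * F x y :=
      fun c d x => (m2 c d).comp (f := fun y : ℝ => (x, y)) (by fun_prop)
    rw [← lintegral_add_left (m3 a b), ← lintegral_const_mul _ (m3 h h),
      ← lintegral_const_mul _ ((m3 h h).const_mul _)]
    refine setLIntegral_mono ((m3 a b).add (m3 b a)) fun x hx => ?_
    rw [← lintegral_add_left (m4 a b x), ← lintegral_const_mul _ (m4 h h x),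
      ← lintegral_const_mul _ ((m4 h h x).const_mul _)]
    refine setLIntegral_mono ((m4 a b x).add (m4 b a x)) fun y hy => ?_
    have := mul_le_mul_left (key hq ha hb (mem_Ioi.1 hx) (mem_Ioi.1 hy)) (F x y)
    calc 2 * (ENNReal.ofReal ((h ^ 2 / (a * b)) ^ (q - 1)) * (W q h x * W q h y * F x y))
        = 2 * (ENNReal.ofReal ((h ^ 2 / (a * b)) ^ (q - 1)) * (W q h x * W q h y)) * F x y := by
          ring
      _ ≤ (W q a x * W q b y + W q b x * W q a y) * F x y := by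
          gcongr
      _ = _ := by ring
  have hmain2 : ENNReal.ofReal ((h ^ 2 / (a * b)) ^ (q - 1)) *
      ∫⁻ p : ℝ × ℝ, F (h * p.1) (h * p.2) ∂((muZ q).prod (muZ q)) ≤
      ∫⁻ p : ℝ × ℝ, F (a * p.1) (b * p.2) ∂((muZ q).prod (muZ q)) :=
    (ENNReal.mul_le_mul_iff_right (by norm_num) (by norm_num)).1 hmain
  have hfinite : ∫⁻ p : ℝ × ℝ, F (a * p.1) (b * p.2) ∂((muZ q).prod (muZ q)) ≠ ⊤ := by
    refine ne_of_lt (lt_of_le_of_lt (lintegral_mono (g := fun _ => ENNReal.ofReal ρ)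
      fun p => ?_) ?_)
    · apply ENNReal.ofReal_le_ofReal
      exact max_le hρ (by linarith [abs_nonneg (a * p.1 - b * p.2)])
    · rw [lintegral_const]
      exact ENNReal.mul_lt_top ENNReal.ofReal_lt_top (measure_lt_top _ _)
  have hint : ∀ c d : ℝ, ∫ p : ℝ × ℝ, max 0 (ρ - |c * p.1 - d * p.2|) ∂((muZ q).prod (muZ q)) =
      (∫⁻ p : ℝ × ℝ, F (c * p.1) (d * p.2) ∂((muZ q).prod (muZ q))).toReal := by
    intro c d
    rw [integral_eq_lintegral_of_nonneg_ae (f := fun p : ℝ × ℝ => max 0 (ρ - |c * p.1 - d * p.2|))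
      (Filter.Eventually.of_forall fun p => le_max_left _ _) (by fun_prop)]
  have habs : ∀ p : ℝ × ℝ, h * |p.1 - p.2| = |h * p.1 - h * p.2| := by
    intro p
    rw [← mul_sub, abs_mul, abs_of_pos hh]
  simp_rw [habs]
  rw [hint, hint]
  have := ENNReal.toReal_mono hfinite hmain2
  rwa [ENNReal.toReal_mul, ENNReal.toReal_ofReal (Real.rpow_nonneg (by positivity) _)] at this

end Pool.Agent.Helper33.NO
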